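import Mathlib
import Pool.Agent.Work.MP_2f2fa8_co.Defs
import Pool.Agent.Work.MP_2f2fa8_co.Extra

/-!
# A maximal thrackle with edge-vertex ratio `1/2`

The drawing consists of nine pairwise crossing disjoint arcs on eighteen vertices, and no further
arc between two of the eighteen vertices can be added.
-/

set_option autoImplicit false

open Pool.Agent.Work.MP_2f2fa8_co

namespace Pool.Agent.Results.MP_2f2fa8_co.HalfRatio

universe u

/-- There is a maximal thrackle on 18 vertices without isolated vertices whose edge-vertex ratio
is `1/2`, in particular smaller than `4/5`, and in which no three edges pass through one point;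
and `1/2` is the smallest ratio that a graph without isolated vertices can have. -/
theorem result :
    (∃ (G : SimpleGraph (Fin 18)) (D : Drawing G), D.IsMaximalThrackle ∧ NoIsolated G ∧
      ratio G = 1 / 2 ∧ ratio G < 4 / 5 ∧
      (∀ e ∈ G.edgeSet, ∀ f ∈ G.edgeSet, ∀ g ∈ G.edgeSet, e ≠ f → e ≠ g → f ≠ g →
        D.arc e ∩ D.arc f ∩ D.arc g = ∅)) ∧
    (∀ (V : Type u) [Fintype V] [Nonempty V] (G : SimpleGraph V), NoIsolated G →
      (1 / 2 : ℚ) ≤ ratio G) :=
  ⟨main, fun _ _ _ G h => half_le_ratio G h⟩

end Pool.Agent.Results.MP_2f2fa8_co.HalfRatio
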